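import Pool.Agent.Helper28.T3.StB

/-!
# Project T3, module ABC: the number of reduced forms with given first coefficient in a class modulo 6
-/

set_option autoImplicit false

namespace Pool.Agent.Helper25.T3

open Pool.Agent.Helper28.T3

private theorem cardB (a b0 : ℤ) (B : Finset ℤ) (ha : 1 ≤ a)
    (h : ∀ b ∈ B, b % 6 = b0 ∧ 0 ≤ b ∧ b < a) : (B.card : ℝ) ≤ (a : ℝ) / 6 + 1 := by
  have hinj : Set.InjOn (fun b : ℤ => b / 6) (B : Set ℤ) := by
    intro x hx y hy hxy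
    have h1 := (h x hx).1
    have h2 := (h y hy).1
    simp only at hxy
    omega
  have hsub : B.image (fun b : ℤ => b / 6) ⊆ Finset.Icc 0 ((a - 1) / 6) := by
    intro x hx
    rw [Finset.mem_image] at hx
    obtain ⟨b, hb, rfl⟩ := hx
    obtain ⟨h1, h2, h3⟩ := h b hb
    rw [Finset.mem_Icc]
    constructor <;> omega
  have h1 : B.card ≤ (Finset.Icc (0 : ℤ) ((a - 1) / 6)).card := by
    rw [← Finset.card_image_of_injOn hinj]
    exact Finset.card_le_card hsub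
  rw [Int.card_Icc] at h1
  have h2 : ((B.card : ℕ) : ℤ) ≤ (a - 1) / 6 + 1 := by omega
  have h3 : 6 * ((B.card : ℕ) : ℤ) ≤ a + 6 := by omega
  have h4 : 6 * (B.card : ℝ) ≤ (a : ℝ) + 6 := by exact_mod_cast h3
  linarith

/-- Module ABC. -/
theorem hABC : StDCN → StCCN → StABC := by
  intro hD hC X a b0 c0 d0 T hX ha hT
  set Q : ℝ := IW X a / (36 * (a : ℝ) ^ 3) + Real.sqrt X / a + 1 with hQ
  have hQ0 : 0 ≤ Q := by
    have := hC X a 0 c0 ∅ hX ha (by simp)
    simpa using this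
  have hfib : ∀ b : ℤ, ((T.filter fun t => t.1 = b).card : ℝ) ≤ Q := by
    intro b
    set Tb : Finset (ℤ × ℤ × ℤ) := T.filter fun t => t.1 = b with hTb
    have hTb' : ∀ t ∈ Tb, t.1 = b ∧ t.2.1 % 6 = c0 ∧ t.2.2 % 6 = d0 ∧ GX X a b t.2.1 t.2.2 := by
      intro t ht
      rw [hTb, Finset.mem_filter] at ht
      obtain ⟨h1, h2, h3, h4⟩ := hT t ht.1
      refine ⟨ht.2, h2, h3, ?_⟩
      rw [← ht.2]
      exact h4
    set G : Finset ℤ := Tb.image fun t => t.2.1 with hG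
    have hcard : Tb.card = ∑ c ∈ G, (Tb.filter fun t => t.2.1 = c).card :=
      Finset.card_eq_sum_card_image (fun t : ℤ × ℤ × ℤ => t.2.1) Tb
    have hGp : ∀ c ∈ G, c % 6 = c0 ∧ 1 ≤ cA a b c ∧ 3 * ((cA a b c : ℤ) : ℝ) ^ 2 ≤ X := by
      intro c hc
      rw [hG, Finset.mem_image] at hc
      obtain ⟨t, ht, rfl⟩ := hc
      obtain ⟨h1, h2, h3, h4, h5⟩ := hTb' t ht
      obtain ⟨g1, g2, g3, g4, g5, g6, g7⟩ := h4
      refine ⟨h2, g4, le_trans ?_ h5⟩
      exact_mod_cast g5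
    have hd : ∀ c ∈ G, ((Tb.filter fun t => t.2.1 = c).card : ℝ) ≤
        Wf X a (cA a b c) / (6 * (a : ℝ) ^ 2) + 1 := by
      intro c _
      have hinj : Set.InjOn (fun t : ℤ × ℤ × ℤ => t.2.2)
          ((Tb.filter fun t => t.2.1 = c : Finset (ℤ × ℤ × ℤ)) : Set (ℤ × ℤ × ℤ)) := by
        intro x hx y hy hxy
        rw [Finset.mem_coe, Finset.mem_filter] at hx hy
        have e1 := (hTb' x hx.1).1
        have e2 := (hTb' y hy.1).1
        refine Prod.ext (e1.trans e2.symm) (Prod.ext (hx.2.trans hy.2.symm) hxy)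
      rw [← Finset.card_image_of_injOn hinj]
      apply hD X a b c d0
      intro d hdm
      rw [Finset.mem_image] at hdm
      obtain ⟨t, ht, rfl⟩ := hdm
      rw [Finset.mem_filter] at ht
      obtain ⟨h1, h2, h3, h4⟩ := hTb' t ht.1
      refine ⟨h3, ?_⟩
      rw [← ht.2]
      exact h4
    rw [hcard]
    push_cast
    exact le_trans (Finset.sum_le_sum hd) (hC X a b c0 G hX ha hGp)
  have hcard : T.card = ∑ b ∈ T.image (fun t => t.1), (T.filter fun t => t.1 = b).card :=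
    Finset.card_eq_sum_card_image (fun t : ℤ × ℤ × ℤ => t.1) T
  have hB : ((T.image fun t => t.1).card : ℝ) ≤ (a : ℝ) / 6 + 1 := by
    apply cardB a b0 _ ha
    intro b hb
    rw [Finset.mem_image] at hb
    obtain ⟨t, ht, rfl⟩ := hb
    obtain ⟨h1, h2, h3, h4, h5⟩ := hT t ht
    obtain ⟨g1, g2, g3, g4, g5, g6, g7⟩ := h4
    exact ⟨h1, g2, g3⟩
  rw [hcard]
  push_cast
  calc ∑ b ∈ T.image (fun t => t.1), ((T.filter fun t => t.1 = b).card : ℝ)
      ≤ ∑ _b ∈ T.image (fun t => t.1), Q := Finset.sum_le_sum fun b _ => hfib b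
    _ = ((T.image fun t => t.1).card : ℝ) * Q := by
        rw [Finset.sum_const, nsmul_eq_mul]
    _ ≤ ((a : ℝ) / 6 + 1) * Q := mul_le_mul_of_nonneg_right hB hQ0

end Pool.Agent.Helper25.T3
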