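import Pool.Agent.Helper28.T3.StA

/-!
# Module MUL of project T3 (owner helper28): multiplicativity of `RR`
-/

set_option autoImplicit false

namespace Pool.Agent.Helper25.T3

open Pool.Agent.Helper28.T3

private lemma dvd_mod (e : ℤ) (m x : ℕ) :
    ((m : ℤ) ∣ ((x % m : ℕ) : ℤ) ^ 2 + ((x % m : ℕ) : ℤ) + e) ↔ (m : ℤ) ∣ (x : ℤ) ^ 2 + x + e := by
  have h : ((x % m : ℕ) : ℤ) ≡ (x : ℤ) [ZMOD (m : ℤ)] := by
    push_cast
    exact Int.mod_modEq _ _
  have h2 : ((x % m : ℕ) : ℤ) ^ 2 + ((x % m : ℕ) : ℤ) + e ≡ (x : ℤ) ^ 2 + x + e [ZMOD (m : ℤ)] :=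
    ((h.pow 2).add h).add_right e
  rw [← Int.modEq_zero_iff_dvd, ← Int.modEq_zero_iff_dvd]
  exact ⟨fun h3 => h2.symm.trans h3, fun h3 => h2.trans h3⟩

private lemma rr_mul (e : ℤ) (m n : ℕ) (hm : 1 ≤ m) (hn : 1 ≤ n) (hc : Nat.Coprime m n) :
    rr e (m * n) = rr e m * rr e n := by
  unfold rr
  rw [← Finset.card_product]
  refine Finset.card_bij (fun x _ => (x % m, x % n)) ?_ ?_ ?_
  · intro x hx
    rw [Finset.mem_filter, Finset.mem_range] at hx
    rw [Finset.mem_product, Finset.mem_filter, Finset.mem_filter, Finset.mem_range, Finset.mem_range]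
    refine ⟨⟨Nat.mod_lt _ hm, ?_⟩, Nat.mod_lt _ hn, ?_⟩
    · rw [dvd_mod]
      exact (by push_cast; exact Dvd.intro _ rfl : (m : ℤ) ∣ ((m * n : ℕ) : ℤ)).trans hx.2
    · rw [dvd_mod]
      exact (by push_cast; exact Dvd.intro_left _ rfl : (n : ℤ) ∣ ((m * n : ℕ) : ℤ)).trans hx.2
  · intro x hx y hy hxy
    rw [Finset.mem_filter, Finset.mem_range] at hx hy
    have h1 : x % m = y % m := congrArg Prod.fst hxy
    have h2 : x % n = y % n := congrArg Prod.snd hxy
    have h3 : x ≡ y [MOD m * n] := (Nat.modEq_and_modEq_iff_modEq_mul hc).1 ⟨h1, h2⟩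
    exact Nat.ModEq.eq_of_lt_of_lt h3 hx.1 hy.1
  · rintro ⟨a, b⟩ hab
    rw [Finset.mem_product, Finset.mem_filter, Finset.mem_filter, Finset.mem_range, Finset.mem_range] at hab
    obtain ⟨⟨ha, ha'⟩, hb, hb'⟩ := hab
    simp only at ha ha' hb hb'
    have hk := (Nat.chineseRemainder hc a b).2
    set k : ℕ := (Nat.chineseRemainder hc a b : ℕ) with hkd
    have hkl : k < m * n := Nat.chineseRemainder_lt_mul hc a b (by omega) (by omega)
    have e1 : k % m = a := by
      have : k % m = a % m := hk.1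
      rw [this, Nat.mod_eq_of_lt ha]
    have e2 : k % n = b := by
      have : k % n = b % n := hk.2
      rw [this, Nat.mod_eq_of_lt hb]
    refine ⟨k, ?_, ?_⟩
    · rw [Finset.mem_filter, Finset.mem_range]
      refine ⟨hkl, ?_⟩
      have d1 : (m : ℤ) ∣ (k : ℤ) ^ 2 + k + e := by rw [← dvd_mod, e1]; exact ha'
      have d2 : (n : ℤ) ∣ (k : ℤ) ^ 2 + k + e := by rw [← dvd_mod, e2]; exact hb'
      have hcz : IsCoprime (m : ℤ) (n : ℤ) := Nat.isCoprime_iff_coprime.2 hc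
      push_cast
      exact hcz.mul_dvd d1 d2
    · simp only [e1, e2]

theorem hMUL : StMUL := by
  intro e
  have h1 : rr e 1 = 1 := by simp [rr]
  refine ⟨h1, ?_, ?_⟩
  · unfold RR
    have hf : (Finset.Icc 1 1).filter (fun k => k ^ 2 ∣ 1) = {1} := by decide
    rw [hf, Finset.sum_singleton]
    exact h1
  · intro m n hm hn hc
    unfold RR
    rw [Finset.sum_mul_sum, ← Finset.sum_product']
    symm
    refine Finset.sum_bij (fun (p : ℕ × ℕ) _ => p.1 * p.2) ?_ ?_ ?_ ?_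
    · rintro ⟨k, l⟩ hp
      simp only [Finset.mem_product, Finset.mem_filter, Finset.mem_Icc] at hp ⊢
      obtain ⟨⟨⟨k1, k2⟩, k3⟩, ⟨l1, l2⟩, l3⟩ := hp
      refine ⟨⟨Nat.mul_pos k1 l1, Nat.mul_le_mul k2 l2⟩, ?_⟩
      rw [mul_pow]
      exact mul_dvd_mul k3 l3
    · rintro ⟨k, l⟩ hp ⟨k', l'⟩ hp' heq
      simp only [Finset.mem_product, Finset.mem_filter, Finset.mem_Icc] at hp hp'
      obtain ⟨⟨⟨k1, k2⟩, k3⟩, ⟨l1, l2⟩, l3⟩ := hp
      obtain ⟨⟨⟨k1', k2'⟩, k3'⟩, ⟨l1', l2'⟩, l3'⟩ := hp'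
      simp only at heq
      have key : ∀ k l : ℕ, k ^ 2 ∣ m → l ^ 2 ∣ n → Nat.gcd (k * l) m = k ∧ Nat.gcd (k * l) n = l := by
        intro k l hk hl
        have hkm : k ∣ m := (Dvd.intro_left _ (by ring : k * k = k ^ 2)).trans hk
        have hln : l ∣ n := (Dvd.intro_left _ (by ring : l * l = l ^ 2)).trans hl
        have c1 : Nat.Coprime l m := (hc.symm.coprime_dvd_left hln)
        have c2 : Nat.Coprime k n := (hc.coprime_dvd_left hkm)
        constructor
        · rw [Nat.Coprime.gcd_mul_right_cancel k c1]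
          exact Nat.gcd_eq_left hkm
        · rw [Nat.Coprime.gcd_mul_left_cancel l c2]
          exact Nat.gcd_eq_left hln
      obtain ⟨a1, a2⟩ := key k l k3 l3
      obtain ⟨b1, b2⟩ := key k' l' k3' l3'
      rw [heq] at a1 a2
      rw [← a1, ← a2, b1, b2]
    · intro k hk
      simp only [Finset.mem_filter, Finset.mem_Icc] at hk
      obtain ⟨⟨k1, k2⟩, k3⟩ := hk
      have hkd : k ∣ m * n := (Dvd.intro_left _ (by ring : k * k = k ^ 2)).trans k3
      have hg : Nat.gcd k m * Nat.gcd k n = k := by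
        rw [← Nat.Coprime.gcd_mul k hc]
        exact Nat.gcd_eq_left hkd
      have s1 : Nat.gcd k m ^ 2 ∣ m := by
        have h2 : Nat.gcd k m ^ 2 ∣ m * n := (pow_dvd_pow_of_dvd (Nat.gcd_dvd_left k m) 2).trans k3
        have h3 : Nat.Coprime (Nat.gcd k m ^ 2) n :=
          Nat.Coprime.pow_left 2 (hc.coprime_dvd_left (Nat.gcd_dvd_right k m))
        exact h3.dvd_of_dvd_mul_right h2
      have s2 : Nat.gcd k n ^ 2 ∣ n := by
        have h2 : Nat.gcd k n ^ 2 ∣ m * n := (pow_dvd_pow_of_dvd (Nat.gcd_dvd_left k n) 2).trans k3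
        have h3 : Nat.Coprime (Nat.gcd k n ^ 2) m :=
          Nat.Coprime.pow_left 2 (hc.symm.coprime_dvd_left (Nat.gcd_dvd_right k n))
        exact h3.dvd_of_dvd_mul_left h2
      refine ⟨(Nat.gcd k m, Nat.gcd k n), ?_, hg⟩
      simp only [Finset.mem_product, Finset.mem_filter, Finset.mem_Icc]
      exact ⟨⟨⟨Nat.gcd_pos_of_pos_right k hm, Nat.le_of_dvd hm (Nat.gcd_dvd_right k m)⟩, s1⟩,
        ⟨Nat.gcd_pos_of_pos_right k hn, Nat.le_of_dvd hn (Nat.gcd_dvd_right k n)⟩, s2⟩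
    · rintro ⟨k, l⟩ hp
      simp only [Finset.mem_product, Finset.mem_filter, Finset.mem_Icc] at hp ⊢
      obtain ⟨⟨⟨k1, k2⟩, k3⟩, ⟨l1, l2⟩, l3⟩ := hp
      have hk0 : 0 < k ^ 2 := by positivity
      have hl0 : 0 < l ^ 2 := by positivity
      obtain ⟨u, hu⟩ := k3
      obtain ⟨w, hw⟩ := l3
      have e1 : m / k ^ 2 = u := by rw [hu]; exact Nat.mul_div_cancel_left u hk0
      have e2 : n / l ^ 2 = w := by rw [hw]; exact Nat.mul_div_cancel_left w hl0
      have e3 : m * n / (k * l) ^ 2 = u * w := by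
        have : m * n = (k * l) ^ 2 * (u * w) := by rw [hu, hw]; ring
        rw [this]
        exact Nat.mul_div_cancel_left _ (by positivity)
      rw [e1, e2, e3]
      have hu1 : 1 ≤ u := by
        rcases Nat.eq_zero_or_pos u with h | h
        · rw [h, mul_zero] at hu; omega
        · exact h
      have hw1 : 1 ≤ w := by
        rcases Nat.eq_zero_or_pos w with h | h
        · rw [h, mul_zero] at hw; omega
        · exact h
      have hcu : Nat.Coprime u w := by
        refine (hc.coprime_dvd_left ?_).coprime_dvd_right ?_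
        · exact Dvd.intro_left _ hu.symm
        · exact Dvd.intro_left _ hw.symm
      exact (rr_mul e u w hu1 hw1 hcu).symm

end Pool.Agent.Helper25.T3
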